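import Mathlib
import Pool.Agent.H53.SGC.CDefs

/-!
# SGC: separability of the C*-algebra (module SE)

The closure of the star algebra generated by a countable set is separable.
-/

namespace Pool.SG

open scoped Topology ComplexConjugate

noncomputable section

theorem se_gens_countable (z : ℕ → SS) : (gens z).Countable := by
  have h : gens z ⊆ ⋃ (k : ℕ), ⋃ (s : Finset ℕ), ⋃ (β : Fin (NN (s.sup id) + 1)),
      {G z k s ∅ (co (s.sup id) β)} := by
    rintro f ⟨k, s, β, -, -, rfl⟩
    simp only [Set.mem_iUnion, Set.mem_singleton_iff]
    exact ⟨k, s, β, rfl⟩
  refine Set.Countable.mono h ?_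
  exact Set.countable_iUnion fun k => Set.countable_iUnion fun s =>
    Set.countable_iUnion fun β => Set.countable_singleton _

theorem se_star_countable {A : Type*} [InvolutiveStar A] {s : Set A} (hs : s.Countable) :
    (star s).Countable := by
  have : star s = star '' s := by
    rw [Set.image_star]
  rw [this]
  exact hs.image _

theorem se_monoid_countable {A : Type*} [Monoid A] {s : Set A} (hs : s.Countable) :
    ((Submonoid.closure s : Submonoid A) : Set A).Countable := by
  rw [Submonoid.closure_eq_mrange, MonoidHom.coe_mrange]
  have : Countable s := hs.to_subtype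
  have : Countable (FreeMonoid s) := inferInstanceAs (Countable (List s))
  exact Set.countable_range _

theorem se : SEStmt := by
  intro z
  have h1 : ((gens z) ∪ star (gens z)).Countable :=
    (se_gens_countable z).union (se_star_countable (se_gens_countable z))
  have h2 : TopologicalSpace.IsSeparable
      ((Submonoid.closure ((gens z) ∪ star (gens z)) : Submonoid BB) : Set BB) :=
    (se_monoid_countable h1).isSeparable
  have h3 : TopologicalSpace.IsSeparable
      ((Submodule.span ℂ ((Submonoid.closure ((gens z) ∪ star (gens z)) : Submonoid BB) : Set BB) :
        Submodule ℂ BB) : Set BB) := h2.span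
  have h4 : TopologicalSpace.IsSeparable ((A0 z : StarSubalgebra ℂ BB) : Set BB) := by
    have h5 : ((A0 z : StarSubalgebra ℂ BB) : Set BB) =
        ((Submodule.span ℂ ((Submonoid.closure ((gens z) ∪ star (gens z)) : Submonoid BB) :
          Set BB) : Submodule ℂ BB) : Set BB) := by
      have h6 := StarAlgebra.adjoin_toSubalgebra ℂ (gens z)
      have h7 := Algebra.adjoin_eq_span ℂ ((gens z) ∪ star (gens z))
      rw [← h6] at h7
      ext x
      constructor
      · intro hx
        have : x ∈ Subalgebra.toSubmodule (StarAlgebra.adjoin ℂ (gens z)).toSubalgebra := hx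
        rw [h7] at this
        exact this
      · intro hx
        have : x ∈ Subalgebra.toSubmodule (StarAlgebra.adjoin ℂ (gens z)).toSubalgebra := by
          rw [h7]
          exact hx
        exact this
    rw [h5]
    exact h3
  have h8 : TopologicalSpace.IsSeparable ((AA z : StarSubalgebra ℂ BB) : Set BB) := by
    have := h4.closure
    rwa [← StarSubalgebra.topologicalClosure_coe] at this
  exact h8.separableSpace

end

end Pool.SG
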